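import Pool.Agent.H7.P3.Count
import Pool.Agent.H7.P3.Conn
import Pool.Agent.H7.P3.Prism

/-!
MP_050c6b_co: the exact statement (every 3-connected cubic graph on `n` vertices has
`⌊n/3⌋` disjoint three-vertex paths) is equivalent to an approximate statement that only
concerns, for every `m`, one order `n` divisible by `m`.
-/

namespace Pool.Agent.Results.MP_050c6b_co.AsymptoticForm

open Pool.Agent.H7.P3

theorem result :
    (∀ (V : Type) (G : SimpleGraph V) (k : ℕ), CubicThreeConnected G →
      3 * k ≤ Nat.card V → HasPaths G k) ↔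
    (∀ ε : ℝ, 0 < ε → ∀ m : ℕ, 0 < m → ∃ n : ℕ, 0 < n ∧ m ∣ n ∧
      ∀ (V : Type) (G : SimpleGraph V), CubicThreeConnected G → Nat.card V = n →
        ∃ k : ℕ, HasPaths G k ∧ (1 - ε) * (n : ℝ) ≤ 3 * (k : ℝ)) := by
  classical
  constructor
  · intro h ε hε m hm
    refine ⟨3 * m, by omega, Dvd.intro_left 3 rfl, fun V G hG hn => ⟨m, h V G m hG hn.ge, ?_⟩⟩
    push_cast
    have : (0 : ℝ) < m := by exact_mod_cast hm
    nlinarith
  · intro h V G k₀ hG hk₀
    by_contra hno
    have hfV := hG.finite
    have h4 := hG.four_le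
    set q : ℕ := Nat.card V - 1 with hq
    have hq3 : 3 ≤ q := by omega
    obtain ⟨n, hn, ⟨j, hj⟩, hgr⟩ := h (1 / (8 * q)) (by positivity) (6 * q) (by omega)
    have hj0 : 0 < j := by
      rcases Nat.eq_zero_or_pos j with h0 | h0
      · subst h0; omega
      · exact h0
    -- the prism of order `6 j`
    have hm3 : 3 ≤ 3 * j := by omega
    have hH := prism_good hm3
    have hNe : NeZero (3 * j) := ⟨by omega⟩
    obtain ⟨v⟩ : Nonempty V := by
      have : 0 < Nat.card V := by omega
      exact (Nat.card_pos_iff.1 this).1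
    obtain ⟨port, hp⟩ := exists_isPort hG v hH
    have hS := subst_good hG hH hp
    have hcard : Nat.card ((ZMod (3 * j) × Bool) × {x : V // x ≠ v}) = n := by
      rw [card_subst hG hH, card_prism hm3, ← hq, hj]
      ring
    obtain ⟨k, hk, hkn⟩ := hgr _ _ hS hcard
    have hfV' := Fintype.ofFinite V
    have hb := count_bound hG hp hk (k₀ := k₀) (by rw [← Nat.card_eq_fintype_card]; exact hk₀) hno
    rw [← Nat.card_eq_fintype_card, ← Nat.card_eq_fintype_card, card_prism hm3, ← hq] at hb
    have hb' : (12 * k + 2 * (3 * j) : ℝ) ≤ 4 * (2 * (3 * j) * q) := by exact_mod_cast hb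
    have hn' : (n : ℝ) = 6 * q * j := by rw [hj]; push_cast; ring
    have hqpos : (0 : ℝ) < q := by
      have : 0 < q := by omega
      exact_mod_cast this
    have hjpos : (0 : ℝ) < j := by exact_mod_cast hj0
    have hkey : (1 / (8 * q) : ℝ) * (6 * q * j) = 3 * j / 4 := by
      field_simp
      ring
    rw [hn', sub_mul, hkey] at hkn
    nlinarith

end Pool.Agent.Results.MP_050c6b_co.AsymptoticForm
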