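import Pool.Agent.H32.Den.Top

/-!
MP_050c6b_co: a density version of Kelmans' question. Every 3-connected cubic graph on `n` vertices
has `k` disjoint three-vertex paths, where `k = ⌊n / 3⌋` or `7 k ≥ 2 n - 1`.
-/

namespace Pool.Agent.Results.MP_050c6b_co.DensityTwoSevenths

open Pool.Agent.H7.P3

theorem result : ∀ (V : Type) (G : SimpleGraph V), CubicThreeConnected G →
    ∃ k : ℕ, HasPaths G k ∧ (k = Nat.card V / 3 ∨ 2 * Nat.card V ≤ 7 * k + 1) :=
  fun _ _ hG => Pool.Agent.H32.Den.main hG

end Pool.Agent.Results.MP_050c6b_co.DensityTwoSevenths
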